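import Pool.Agent.N718.DC.Stm

/-!
# Project DC (helper718), part FIX: a sample point with prime values and prescribed symbols
(helper433)
-/

set_option autoImplicit false

namespace Pool.Agent.N433.DC

open Finset Pool.Agent.N718.DC

/-! ### elementary facts -/

theorem rt_one {M : ℕ} (hM : 1 ≤ M) : 1 ≤ rt M := by
  unfold rt
  have h1 : 0 < Nat.totient M := Nat.totient_pos.2 hM
  rw [le_div_iff₀ (by exact_mod_cast h1), one_mul]
  exact_mod_cast Nat.totient_le M

theorem lam_nn (n : ℤ) : 0 ≤ lam n := by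
  unfold lam
  split_ifs with h
  · exact Real.log_nonneg (by exact_mod_cast h.1)
  · exact le_refl _

theorem lam_ne {n : ℤ} (h : lam n ≠ 0) : 0 < n ∧ n.natAbs.Prime := by
  unfold lam at h
  by_contra hcon
  rw [if_neg hcon] at h
  exact h rfl

/-- Chebyshev's inequality -/
theorem cheb {ι : Type} (B : Finset ι) (g : ι → ℝ) (l R : ℝ) (hl : 0 < l)
    (h : ∑ b ∈ B, g b ^ 2 ≤ l ^ 2 * R) : ((B.filter fun b => l ≤ |g b|).card : ℝ) ≤ R := by
  have h1 : ((B.filter fun b => l ≤ |g b|).card : ℝ) * l ^ 2 ≤ ∑ b ∈ B, g b ^ 2 := by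
    rw [← nsmul_eq_mul, ← Finset.sum_const]
    calc ∑ _b ∈ B.filter (fun b => l ≤ |g b|), l ^ 2
        ≤ ∑ b ∈ B.filter (fun b => l ≤ |g b|), g b ^ 2 := by
          apply Finset.sum_le_sum
          intro b hb
          rw [← sq_abs (g b)]
          exact pow_le_pow_left₀ hl.le (Finset.mem_filter.1 hb).2 2
      _ ≤ ∑ b ∈ B, g b ^ 2 := Finset.sum_le_sum_of_subset_of_nonneg (Finset.filter_subset _ _)
          fun b _ _ => sq_nonneg _
  have h2 : 0 < l ^ 2 := by positivity
  have h3 : ((B.filter fun b => l ≤ |g b|).card : ℝ) * l ^ 2 ≤ R * l ^ 2 := by linarith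
  exact le_of_mul_le_mul_right h3 h2

/-- at least half of the indices are used -/
theorem ts_card {m : ℕ} (D : Data m) (hq : D.q'.Prime) (hqM : ¬ D.q' ∣ D.M) (h4 : 4 ≤ D.q')
    (h8 : 4 ≤ D.T) : (D.T : ℝ) / 2 ≤ (D.ts.card : ℝ) := by
  classical
  have h1 : ((range D.T).filter (fun t => (D.q' : ℤ) ∣ D.y t)).card ≤ D.T / D.q' + 1 := by
    rw [← Finset.card_range (D.T / D.q' + 1)]
    apply Finset.card_le_card_of_injOn (fun t => t / D.q')
    · intro t ht
      rw [Finset.mem_coe, mem_filter, mem_range] at ht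
      rw [Finset.mem_coe, mem_range]
      exact Nat.lt_succ_of_le (Nat.div_le_div_right ht.1.le)
    · intro t ht t' ht' h
      rw [Finset.mem_coe, mem_filter] at ht ht'
      have h2 : (D.q' : ℤ) ∣ D.M * ((t' : ℤ) - t) := by
        have := dvd_sub ht'.2 ht.2
        unfold Data.y at this
        have e : D.y₀ + D.M * t' - (D.y₀ + D.M * t) = D.M * ((t' : ℤ) - t) := by ring
        rwa [e] at this
      have hp : Prime (D.q' : ℤ) := Nat.prime_iff_prime_int.1 hq
      have h3 : (D.q' : ℤ) ∣ (t' : ℤ) - t := by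
        rcases hp.dvd_or_dvd h2 with h3 | h3
        · exact absurd (by exact_mod_cast h3) hqM
        · exact h3
      have h5 : t % D.q' = t' % D.q' := Nat.modEq_iff_dvd.2 h3
      have h6 : t / D.q' = t' / D.q' := h
      rw [← Nat.div_add_mod t D.q', ← Nat.div_add_mod t' D.q', h5, h6]
  have h2 : D.ts.card + ((range D.T).filter (fun t => (D.q' : ℤ) ∣ D.y t)).card = D.T := by
    have := Finset.card_filter_add_card_filter_not (s := range D.T) (fun t => (D.q' : ℤ) ∣ D.y t)
    rw [Finset.card_range] at this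
    unfold Data.ts
    omega
  have h3 : D.T / D.q' ≤ D.T / 4 := Nat.div_le_div_left h4 (by norm_num)
  have h5 : D.T ≤ 2 * D.ts.card := by omega
  have h6 : (D.T : ℝ) ≤ 2 * (D.ts.card : ℝ) := by exact_mod_cast h5
  linarith

/-- the pairs -/
def PP (m : ℕ) : Finset (Fin m × Fin m) := univ.filter fun x => x.1 < x.2

/-- the symbol of a pair -/
noncomputable def js {m : ℕ} (D : Data m) (b : Fin m → ℤ × ℤ) (t : ℕ) (x : Fin m × Fin m) : ℝ :=
  (jacobiSym (D.val x.1 t (b x.1)) (D.val x.2 t (b x.2)).natAbs : ℝ)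

/-! ### the pointwise argument -/

theorem good {m : ℕ} (D : Data m) (b : Fin m → ℤ × ℤ) (w : ℝ) (hw : 1 ≤ w) (hT : 0 < (D.T : ℝ))
    (hN : (D.T : ℝ) / 2 ≤ (D.ts.card : ℝ))
    (hpos : ∀ i, ∀ t ∈ D.ts, 0 < D.val i t (b i))
    (ha : |∑ t ∈ D.ts, (D.f t b - w ^ m * D.one t b)| < w ^ m * D.T / 8)
    (hb : ∀ J ∈ (PP m).powerset, J ≠ ∅ →
      |∑ t ∈ D.ts, D.f t b * ∏ x ∈ J, js D b t x| < D.T / (8 * 2 ^ (PP m).card))
    (hc : ∀ t ∈ D.ts, ∀ x ∈ PP m, D.val x.1 t (b x.1) ≠ D.val x.2 t (b x.2))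
    (ε : Fin m → Fin m → ℤ) (hε : ∀ i j, ε i j = 1 ∨ ε i j = -1) :
    ∃ t ∈ D.ts, (∀ i, (D.val i t (b i)).natAbs.Prime) ∧
      ∀ i j, i < j → jacobiSym (D.val i t (b i)) (D.val j t (b j)).natAbs = ε i j := by
  classical
  have habs : ∀ t x, |js D b t x| ≤ 1 := by
    intro t x
    unfold js
    rcases jacobiSym.trichotomy (D.val x.1 t (b x.1)) (D.val x.2 t (b x.2)).natAbs with
      h | h | h <;> rw [h] <;> simp
  set e : Fin m × Fin m → ℝ := fun x => (ε x.1 x.2 : ℝ) with he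
  have heabs : ∀ x, |e x| = 1 := by
    intro x
    rcases hε x.1 x.2 with h | h <;> simp [he, h]
  have hf0 : ∀ t, 0 ≤ D.f t b := fun t => Finset.prod_nonneg fun i _ => lam_nn _
  have hfac : ∀ t x, 0 ≤ 1 + e x * js D b t x := by
    intro t x
    have h1 : |e x * js D b t x| ≤ 1 := by
      rw [abs_mul, heabs, one_mul]
      exact habs t x
    have := (abs_le.1 h1).1
    linarith
  -- the expansion
  have hexp : ∑ t ∈ D.ts, D.f t b * ∏ x ∈ PP m, (1 + e x * js D b t x) =
      ∑ J ∈ (PP m).powerset, (∏ x ∈ J, e x) *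
        ∑ t ∈ D.ts, D.f t b * ∏ x ∈ J, js D b t x := by
    have h1 : ∀ t, D.f t b * ∏ x ∈ PP m, (1 + e x * js D b t x) =
        ∑ J ∈ (PP m).powerset, (∏ x ∈ J, e x) * (D.f t b * ∏ x ∈ J, js D b t x) := by
      intro t
      rw [Finset.prod_one_add, Finset.mul_sum]
      refine Finset.sum_congr rfl fun J _ => ?_
      rw [Finset.prod_mul_distrib]
      ring
    rw [Finset.sum_congr rfl fun t _ => h1 t, Finset.sum_comm]
    refine Finset.sum_congr rfl fun J _ => ?_
    rw [Finset.mul_sum]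
  have hmem : ∅ ∈ (PP m).powerset := Finset.empty_mem_powerset _
  rw [← Finset.add_sum_erase _ _ hmem] at hexp
  simp only [Finset.prod_empty, one_mul, mul_one] at hexp
  -- the main term
  have hmain : w ^ m * D.T / 2 - w ^ m * D.T / 8 ≤ ∑ t ∈ D.ts, D.f t b := by
    have h1 : ∑ t ∈ D.ts, (D.f t b - w ^ m * D.one t b) =
        ∑ t ∈ D.ts, D.f t b - w ^ m * D.ts.card := by
      rw [Finset.sum_sub_distrib]
      congr 1
      rw [Finset.sum_congr rfl (g := fun _ => w ^ m), Finset.sum_const, nsmul_eq_mul, mul_comm]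
      intro t ht
      have : D.one t b = 1 := by
        unfold Data.one
        refine Finset.prod_eq_one fun i _ => ?_
        unfold pos
        rw [if_pos (hpos i t ht)]
      rw [this, mul_one]
    rw [h1] at ha
    have h2 := (abs_lt.1 ha).1
    have h3 : w ^ m * (D.T / 2) ≤ w ^ m * D.ts.card :=
      mul_le_mul_of_nonneg_left hN (by positivity)
    linarith
  have hrest : |∑ J ∈ (PP m).powerset.erase ∅, (∏ x ∈ J, e x) *
      ∑ t ∈ D.ts, D.f t b * ∏ x ∈ J, js D b t x| ≤ D.T / 8 := by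
    refine (Finset.abs_sum_le_sum_abs _ _).trans ?_
    calc ∑ J ∈ (PP m).powerset.erase ∅, |(∏ x ∈ J, e x) *
          ∑ t ∈ D.ts, D.f t b * ∏ x ∈ J, js D b t x|
        ≤ ∑ _J ∈ (PP m).powerset.erase ∅, (D.T : ℝ) / (8 * 2 ^ (PP m).card) := by
          refine Finset.sum_le_sum fun J hJ => ?_
          rw [Finset.mem_erase] at hJ
          rw [abs_mul, Finset.abs_prod, Finset.prod_congr rfl fun x _ => heabs x,
            Finset.prod_const_one, one_mul]
          exact (hb J hJ.2 hJ.1).le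
      _ ≤ 2 ^ (PP m).card * ((D.T : ℝ) / (8 * 2 ^ (PP m).card)) := by
          rw [Finset.sum_const, nsmul_eq_mul]
          apply mul_le_mul_of_nonneg_right _ (by positivity)
          have h1 : ((PP m).powerset.erase ∅).card ≤ 2 ^ (PP m).card := by
            rw [← Finset.card_powerset]
            exact Finset.card_le_card (Finset.erase_subset _ _)
          exact_mod_cast h1
      _ = D.T / 8 := by
          field_simp
  have hwm : 1 ≤ w ^ m := one_le_pow₀ hw
  have hpos' : 0 < ∑ t ∈ D.ts, D.f t b * ∏ x ∈ PP m, (1 + e x * js D b t x) := by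
    rw [hexp]
    have h1 := (abs_le.1 hrest).1
    nlinarith
  obtain ⟨t, ht, htp⟩ : ∃ t ∈ D.ts, 0 < D.f t b * ∏ x ∈ PP m, (1 + e x * js D b t x) := by
    by_contra hcon
    push Not at hcon
    exact absurd (Finset.sum_nonpos hcon) (not_le.2 hpos')
  have hf : D.f t b ≠ 0 := fun h => by rw [h, zero_mul] at htp; exact lt_irrefl _ htp
  have hprod : ∏ x ∈ PP m, (1 + e x * js D b t x) ≠ 0 := fun h => by
    rw [h, mul_zero] at htp
    exact lt_irrefl _ htp
  have hprime : ∀ i, (D.val i t (b i)).natAbs.Prime := by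
    intro i
    unfold Data.f at hf
    exact (lam_ne (Finset.prod_ne_zero_iff.1 hf i (mem_univ i))).2
  refine ⟨t, ht, hprime, fun i j hij => ?_⟩
  have hx : (i, j) ∈ PP m := Finset.mem_filter.2 ⟨mem_univ _, hij⟩
  have h1 := Finset.prod_ne_zero_iff.1 hprod (i, j) hx
  have hne := hc t ht (i, j) hx
  have hi := hpos i t ht
  have hj := hpos j t ht
  have hcop : (D.val i t (b i)).gcd ((D.val j t (b j)).natAbs : ℤ) = 1 := by
    rw [Int.gcd_eq_natAbs, Int.natAbs_natCast, ← Nat.coprime_iff_gcd_eq_one,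
      Nat.coprime_primes (hprime i) (hprime j)]
    intro h
    apply hne
    show D.val i t (b i) = D.val j t (b j)
    have h2 : ((D.val i t (b i)).natAbs : ℤ) = ((D.val j t (b j)).natAbs : ℤ) := by
      exact_mod_cast h
    rwa [Int.natAbs_of_nonneg hi.le, Int.natAbs_of_nonneg hj.le] at h2
  have hjne := jacobiSym.ne_zero hcop
  have h2 : (1 : ℝ) + e (i, j) * js D b t (i, j) ≠ 0 := h1
  simp only [he, js] at h2
  rcases jacobiSym.trichotomy (D.val i t (b i)) (D.val j t (b j)).natAbs with h | h | h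
  · exact absurd h hjne
  · rw [h] at h2 ⊢
    rcases hε i j with h3 | h3
    · exact h3.symm
    · exfalso
      rw [h3] at h2
      norm_num at h2
  · rw [h] at h2 ⊢
    rcases hε i j with h3 | h3
    · exfalso
      rw [h3] at h2
      norm_num at h2
    · exact h3.symm

/-! ### the coincidences -/

theorem bx_card {H : ℕ} {u v : ℤ × ℤ} (h : inbox H u v) : ((bx u v).card : ℝ) = ar u v := by
  obtain ⟨-, h1, -, -, h2, -⟩ := h
  unfold bx ar
  rw [Finset.card_product, Int.card_Icc, Int.card_Icc]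
  push_cast
  have e1 : ((v.1 + 1 - u.1).toNat : ℝ) = (v.1 : ℝ) - u.1 + 1 := by
    have h3 : ((v.1 + 1 - u.1).toNat : ℤ) = v.1 + 1 - u.1 := Int.toNat_of_nonneg (by omega)
    have h4 : (((v.1 + 1 - u.1).toNat : ℤ) : ℝ) = ((v.1 + 1 - u.1 : ℤ) : ℝ) := by rw [h3]
    push_cast at h4
    rw [h4]
    ring
  have e2 : ((v.2 + 1 - u.2).toNat : ℝ) = (v.2 : ℝ) - u.2 + 1 := by
    have h3 : ((v.2 + 1 - u.2).toNat : ℤ) = v.2 + 1 - u.2 := Int.toNat_of_nonneg (by omega)
    have h4 : (((v.2 + 1 - u.2).toNat : ℤ) : ℝ) = ((v.2 + 1 - u.2 : ℤ) : ℝ) := by rw [h3]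
    push_cast at h4
    rw [h4]
    ring
  rw [e1, e2]

theorem vol_card {m : ℕ} (D : Data m) {H : ℕ} (h : ∀ i, inbox H (D.u i) (D.v i)) :
    (D.box.card : ℝ) = D.vol := by
  unfold Data.box Data.vol
  rw [Fintype.card_piFinset]
  push_cast
  exact Finset.prod_congr rfl fun i _ => bx_card (h i)

/-- the value determines the first coordinate -/
theorem G_inj {s : ℤ} {L q : ℕ} (hs : s = 1 ∨ s = -1) (hL : 1 ≤ L) (hq : 1 ≤ q) {y r : ℤ}
    {b b' : ℤ × ℤ} (h2 : b.2 = b'.2) (h : G s L q y r b = G s L q y r b') : b = b' := by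
  have hs0 : s ≠ 0 := by rcases hs with rfl | rfl <;> norm_num
  have hL0 : (L : ℤ) ≠ 0 := by exact_mod_cast (by omega : L ≠ 0)
  have hq0 : (q : ℤ) ≠ 0 := by exact_mod_cast (by omega : q ≠ 0)
  unfold G at h
  rw [h2] at h
  have h3 := mul_left_cancel₀ hs0 h
  have h4 : (L : ℤ) * ((q : ℤ) * b.1 + y * b'.2) = (L : ℤ) * ((q : ℤ) * b'.1 + y * b'.2) := by
    linarith
  have h5 := mul_left_cancel₀ hL0 h4
  have h6 : (q : ℤ) * b.1 = (q : ℤ) * b'.1 := by linarith
  exact Prod.ext (mul_left_cancel₀ hq0 h6) h2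

open Classical in
theorem coinc {m : ℕ} (D : Data m) (hs : ∀ i, D.s i = 1 ∨ D.s i = -1) (hL : ∀ i, 1 ≤ D.L i)
    (hq : 1 ≤ D.q) (t : ℕ) (i j : Fin m) (hij : i ≠ j) :
    (D.box.filter fun b => D.val i t (b i) = D.val j t (b j)).card *
      (Icc (D.u j).1 (D.v j).1).card ≤ D.box.card := by
  set A : Finset (ℤ × ℤ) := ({0} : Finset ℤ) ×ˢ Icc (D.u j).2 (D.v j).2 with hA
  set B : Fin m → Finset (ℤ × ℤ) := fun k => bx (D.u k) (D.v k) with hB
  have h1 : (D.box.filter fun b => D.val i t (b i) = D.val j t (b j)).card ≤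
      (Fintype.piFinset (Function.update B j A)).card := by
    apply Finset.card_le_card_of_injOn (fun b => Function.update b j (0, (b j).2))
    · intro b hb
      rw [Finset.mem_coe, Finset.mem_filter] at hb
      have hb1 := hb.1
      unfold Data.box at hb1
      rw [Fintype.mem_piFinset] at hb1
      rw [Finset.mem_coe, Fintype.mem_piFinset]
      intro k
      by_cases hk : k = j
      · subst hk
        show Function.update b k (0, (b k).2) k ∈ _
        rw [Function.update_self, Function.update_self, hA, Finset.mem_product]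
        have := hb1 k
        unfold bx at this
        rw [Finset.mem_product] at this
        exact ⟨Finset.mem_singleton_self _, this.2⟩
      · show Function.update b j (0, (b j).2) k ∈ _
        rw [Function.update_of_ne hk, Function.update_of_ne hk]
        exact hb1 k
    · intro b hb b' hb' h
      rw [Finset.mem_coe, Finset.mem_filter] at hb hb'
      have hk : ∀ k, k ≠ j → b k = b' k := by
        intro k hk
        have := congrFun h k
        simp only [Function.update_of_ne hk] at this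
        exact this
      have hj2 : (b j).2 = (b' j).2 := by
        have := congrFun h j
        simp only [Function.update_self] at this
        exact (Prod.ext_iff.1 this).2
      have hval : D.val j t (b j) = D.val j t (b' j) := by
        rw [← hb.2, ← hb'.2, hk i hij]
      have hj : b j = b' j := G_inj (hs j) (hL j) hq hj2 hval
      funext k
      by_cases hkj : k = j
      · rw [hkj, hj]
      · exact hk k hkj
  refine (Nat.mul_le_mul_right _ h1).trans (le_of_eq ?_)
  unfold Data.box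
  rw [Fintype.card_piFinset, Fintype.card_piFinset, ← Finset.mul_prod_erase univ _ (mem_univ j),
    ← Finset.mul_prod_erase univ (fun k => (bx (D.u k) (D.v k)).card) (mem_univ j),
    Function.update_self]
  have h2 : ∏ k ∈ univ.erase j, (Function.update B j A k).card =
      ∏ k ∈ univ.erase j, (bx (D.u k) (D.v k)).card := by
    refine Finset.prod_congr rfl fun k hk => ?_
    rw [Function.update_of_ne (Finset.ne_of_mem_erase hk)]
  rw [h2, hA, Finset.card_product, Finset.card_singleton, one_mul]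
  unfold bx
  rw [Finset.card_product]
  ring

open Classical in
/-- the count -/
theorem count {m : ℕ} (D : Data m) {κ W H : ℕ} (hOk : D.Ok κ W H) (C : ℝ)
    (hlog2 : 2 ≤ Real.log H) (hbig : (W : ℝ) * (64 * 8 ^ (PP m).card) ≤ Real.log H)
    (hbig2 : (W : ℝ) * ((PP m).card * Real.log H ^ (κ + 1)) ≤ H)
    (hD2 : ∑ b ∈ D.box, (∑ t ∈ D.ts, (D.f t b - rt D.M ^ m * D.one t b)) ^ 2 ≤
      C / W * rt D.M ^ (2 * m) * D.T ^ 2 * D.vol)
    (hTW : ∀ J : Finset (Fin m × Fin m), J.Nonempty → (∀ x ∈ J, x.1 < x.2) →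
      ∑ b ∈ D.box, (∑ t ∈ D.ts, D.f t b * ∏ x ∈ J, js D b t x) ^ 2 ≤
        1 / Real.log H * D.T ^ 2 * D.vol)
    (ε : Fin m → Fin m → ℤ) (hε : ∀ i j, ε i j = 1 ∨ ε i j = -1)
    (S : Finset (Fin m → ℤ × ℤ)) (hS : ∀ b ∈ S, b ∈ D.box ∧
      (∀ i, ∀ t ∈ D.ts, 0 < D.val i t (b i)) ∧
      ¬ ∃ t ∈ D.ts, (∀ i, (D.val i t (b i)).natAbs.Prime) ∧
        ∀ i j, i < j → jacobiSym (D.val i t (b i)) (D.val j t (b j)).natAbs = ε i j) :
    (S.card : ℝ) ≤ (64 * C + 2) / W * D.vol := by
  have hl0 : 0 < Real.log H := by linarith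
  have hH0 : (0 : ℝ) < H := by
    rcases Nat.eq_zero_or_pos H with h | h
    · rw [h, Nat.cast_zero, Real.log_zero] at hl0
      exact absurd hl0 (lt_irrefl _)
    · exact_mod_cast h
  have hW : (1 : ℝ) ≤ W := by exact_mod_cast hOk.hW
  have hw := rt_one hOk.hM
  set w := rt D.M with hwdef
  have hT8 : (8 : ℝ) ≤ D.T := by
    have h1 : (2 : ℝ) ^ (2 * m + 3) ≤ Real.log H ^ (2 * m + 3) :=
      pow_le_pow_left₀ (by norm_num) hlog2 _
    have h2 : (2 : ℝ) ^ 3 ≤ 2 ^ (2 * m + 3) := pow_le_pow_right₀ (by norm_num) (by omega)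
    have h3 := hOk.hT
    linarith
  have hT8' : 8 ≤ D.T := by exact_mod_cast hT8
  have hT0 : (0 : ℝ) < D.T := by linarith
  have hq4 : 4 ≤ D.q' := by
    have h1 := hOk.hqT
    have h2 : (4 : ℝ) ≤ D.q' := by nlinarith
    exact_mod_cast h2
  have hN := ts_card D hOk.hq' hOk.hqM hq4 (by omega)
  have hvol0 : 0 ≤ D.vol := by
    rw [← vol_card D hOk.hbox]
    positivity
  have hg0 : D.g ≠ 0 := by
    intro h
    have h1 := hOk.hg
    rw [h, zero_dvd_iff] at h1
    have h2 := hOk.hM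
    omega
  have hq1 : 1 ≤ D.q := by
    unfold Data.q
    exact Nat.mul_pos (Nat.pos_of_ne_zero hg0) hOk.hq'.pos
  set p := (PP m).card with hp
  -- the three sets
  set EA := D.box.filter fun b =>
    w ^ m * D.T / 8 ≤ |∑ t ∈ D.ts, (D.f t b - w ^ m * D.one t b)| with hEA
  set EJ : Finset (Fin m × Fin m) → Finset (Fin m → ℤ × ℤ) := fun J => D.box.filter fun b =>
    D.T / (8 * 2 ^ p) ≤ |∑ t ∈ D.ts, D.f t b * ∏ x ∈ J, js D b t x| with hEJ
  set EC : ℕ × (Fin m × Fin m) → Finset (Fin m → ℤ × ℤ) := fun z => D.box.filter fun b =>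
    D.val z.2.1 z.1 (b z.2.1) = D.val z.2.2 z.1 (b z.2.2) with hEC
  have hA : (EA.card : ℝ) ≤ 64 * C / W * D.vol := by
    refine cheb _ _ _ _ (by positivity) (hD2.trans (le_of_eq ?_))
    ring
  have hJ : ∀ J ∈ (PP m).powerset.erase ∅,
      ((EJ J).card : ℝ) ≤ 64 * 4 ^ p / Real.log H * D.vol := by
    intro J hJ
    rw [Finset.mem_erase, Finset.mem_powerset] at hJ
    refine cheb _ _ _ _ (by positivity) ((hTW J (Finset.nonempty_iff_ne_empty.2 hJ.1)
      fun x hx => (Finset.mem_filter.1 (hJ.2 hx)).2).trans (le_of_eq ?_))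
    have e : (4 : ℝ) ^ p = 2 ^ p * 2 ^ p := by
      rw [← mul_pow]
      norm_num
    rw [e]
    field_simp
    ring
  have hCc : ∀ z ∈ D.ts ×ˢ PP m, ((EC z).card : ℝ) ≤ Real.log H / H * D.vol := by
    intro z hz
    rw [Finset.mem_product] at hz
    have hlt : z.2.1 < z.2.2 := (Finset.mem_filter.1 hz.2).2
    have h1 := coinc D hOk.hs hOk.hL hq1 z.1 z.2.1 z.2.2 hlt.ne
    have h2 : ((EC z).card : ℝ) * ((Icc (D.u z.2.2).1 (D.v z.2.2).1).card : ℝ) ≤ D.vol := by
      rw [← vol_card D hOk.hbox]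
      exact_mod_cast h1
    have h3 : (H : ℝ) / Real.log H ≤ ((Icc (D.u z.2.2).1 (D.v z.2.2).1).card : ℝ) := by
      have h4 := (hOk.hu z.2.2).1
      rw [Int.card_Icc]
      have h5 : ((D.v z.2.2).1 + 1 - (D.u z.2.2).1 : ℤ) ≤
          (((D.v z.2.2).1 + 1 - (D.u z.2.2).1).toNat : ℤ) := Int.self_le_toNat _
      have h6 : (((D.v z.2.2).1 + 1 - (D.u z.2.2).1 : ℤ) : ℝ) ≤
          (((D.v z.2.2).1 + 1 - (D.u z.2.2).1).toNat : ℝ) := by exact_mod_cast h5
      push_cast at h6
      linarith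
    have h4 : ((EC z).card : ℝ) * (H / Real.log H) ≤ D.vol :=
      (mul_le_mul_of_nonneg_left h3 (Nat.cast_nonneg _)).trans h2
    have h5 : ((EC z).card : ℝ) = ((EC z).card : ℝ) * (H / Real.log H) * (Real.log H / H) := by
      field_simp
    rw [h5, mul_comm (Real.log H / H)]
    exact mul_le_mul_of_nonneg_right h4 (by positivity)
  -- the cover
  have hsub : S ⊆
      (EA ∪ ((PP m).powerset.erase ∅).biUnion EJ) ∪ (D.ts ×ˢ PP m).biUnion EC := by
    intro b hb
    obtain ⟨hbb, hpos, hno⟩ := hS b hb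
    by_contra hcon
    rw [Finset.mem_union, Finset.mem_union, not_or, not_or] at hcon
    obtain ⟨⟨c1, c2⟩, c3⟩ := hcon
    apply hno
    refine good D b w hw hT0 hN hpos ?_ ?_ ?_ ε hε
    · by_contra hcon
      push Not at hcon
      exact c1 (Finset.mem_filter.2 ⟨hbb, hcon⟩)
    · intro J hJ hJe
      by_contra hcon
      push Not at hcon
      exact c2 (Finset.mem_biUnion.2 ⟨J, Finset.mem_erase.2 ⟨hJe, hJ⟩,
        Finset.mem_filter.2 ⟨hbb, hcon⟩⟩)
    · intro t ht x hx hval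
      exact c3 (Finset.mem_biUnion.2 ⟨(t, x), Finset.mem_product.2 ⟨ht, hx⟩,
        Finset.mem_filter.2 ⟨hbb, hval⟩⟩)
  have hcard := Finset.card_le_card hsub
  have hcard2 : (S.card : ℝ) ≤
      (EA.card : ℝ) + ∑ J ∈ (PP m).powerset.erase ∅, ((EJ J).card : ℝ) +
        ∑ z ∈ D.ts ×ˢ PP m, ((EC z).card : ℝ) := by
    have h1 := (hcard.trans (Finset.card_union_le _ _)).trans
      (add_le_add ((Finset.card_union_le _ _).trans (add_le_add le_rfl Finset.card_biUnion_le))
        Finset.card_biUnion_le)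
    exact_mod_cast h1
  have hJs : ∑ J ∈ (PP m).powerset.erase ∅, ((EJ J).card : ℝ) ≤ 1 / W * D.vol := by
    refine (Finset.sum_le_sum hJ).trans ?_
    rw [Finset.sum_const, nsmul_eq_mul]
    have h1 : (((PP m).powerset.erase ∅).card : ℝ) ≤ 2 ^ p := by
      have h2 : ((PP m).powerset.erase ∅).card ≤ 2 ^ p := by
        rw [hp, ← Finset.card_powerset]
        exact Finset.card_le_card (Finset.erase_subset _ _)
      exact_mod_cast h2
    have h2 : (2 : ℝ) ^ p * (64 * 4 ^ p / Real.log H) ≤ 1 / W := by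
      have e : (8 : ℝ) ^ p = 2 ^ p * 4 ^ p := by
        rw [← mul_pow]
        norm_num
      rw [e] at hbig
      rw [mul_div_assoc', div_le_div_iff₀ hl0 (by linarith)]
      linarith
    calc (((PP m).powerset.erase ∅).card : ℝ) * (64 * 4 ^ p / Real.log H * D.vol)
        ≤ 2 ^ p * (64 * 4 ^ p / Real.log H * D.vol) := by gcongr
      _ = 2 ^ p * (64 * 4 ^ p / Real.log H) * D.vol := by ring
      _ ≤ 1 / W * D.vol := by gcongr
  have hCs : ∑ z ∈ D.ts ×ˢ PP m, ((EC z).card : ℝ) ≤ 1 / W * D.vol := by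
    refine (Finset.sum_le_sum hCc).trans ?_
    rw [Finset.sum_const, nsmul_eq_mul, Finset.card_product, Nat.cast_mul]
    have h1 : (D.ts.card : ℝ) ≤ Real.log H ^ κ := by
      have h2 : D.ts.card ≤ D.T := by
        unfold Data.ts
        refine (Finset.card_filter_le _ _).trans (le_of_eq (Finset.card_range _))
      have h3 : (D.ts.card : ℝ) ≤ D.T := by exact_mod_cast h2
      exact h3.trans hOk.hT'
    have h2 : Real.log H ^ κ * p * (Real.log H / H) ≤ 1 / W := by
      rw [mul_div_assoc', div_le_div_iff₀ hH0 (by linarith)]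
      rw [pow_succ] at hbig2
      linarith
    calc (D.ts.card : ℝ) * (p : ℝ) * (Real.log H / H * D.vol)
        ≤ Real.log H ^ κ * p * (Real.log H / H * D.vol) := by gcongr
      _ = Real.log H ^ κ * p * (Real.log H / H) * D.vol := by ring
      _ ≤ 1 / W * D.vol := by gcongr
  calc _ ≤ _ := hcard2
    _ ≤ 64 * C / W * D.vol + 1 / W * D.vol + 1 / W * D.vol := by linarith
    _ = (64 * C + 2) / W * D.vol := by ring

theorem large (p κ W : ℕ) : ∃ H₃ : ℕ, ∀ H : ℕ, H₃ ≤ H → 2 ≤ Real.log H ∧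
    (W : ℝ) * (64 * 8 ^ p) ≤ Real.log H ∧ (W : ℝ) * (p * Real.log H ^ (κ + 1)) ≤ H := by
  have t1 : Filter.Tendsto (fun H : ℕ => Real.log H) Filter.atTop Filter.atTop :=
    Real.tendsto_log_atTop.comp tendsto_natCast_atTop_atTop
  have t2 := t1.eventually_ge_atTop 2
  have t3 := t1.eventually_ge_atTop ((W : ℝ) * (64 * 8 ^ p))
  have t4 : ∀ᶠ H : ℕ in Filter.atTop, (W : ℝ) * (p * Real.log H ^ (κ + 1)) ≤ H := by
    have h := (Real.isLittleO_pow_log_id_atTop (n := κ + 1)).def
      (c := 1 / ((W : ℝ) * p + 1)) (by positivity)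
    have h' := tendsto_natCast_atTop_atTop.eventually h
    filter_upwards [h', t2] with H hH h2
    have hl : 0 ≤ Real.log H ^ (κ + 1) := pow_nonneg (by linarith) _
    rw [Real.norm_eq_abs, abs_of_nonneg hl, id, Real.norm_eq_abs,
      abs_of_nonneg (Nat.cast_nonneg H), one_div, inv_mul_eq_div, le_div_iff₀ (by positivity)] at hH
    nlinarith
  exact Filter.eventually_atTop.1 (t2.and (t3.and t4))

theorem fix_ (h1 : S_D2) (h2 : S_TW) : S_FIX := by
  intro m
  obtain ⟨C, hC, hD2⟩ := h1 m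
  refine ⟨64 * C + 2, by positivity, ?_⟩
  intro κ W
  obtain ⟨H₁, hH₁⟩ := hD2 κ W
  obtain ⟨H₂, hH₂⟩ := h2 m κ W
  obtain ⟨H₃, hH₃⟩ := large (PP m).card κ W
  refine ⟨max H₁ (max H₂ H₃), ?_⟩
  intro H hH D hOk ε hε
  obtain ⟨l1, l2, l3⟩ := hH₃ H ((le_max_right _ _).trans ((le_max_right _ _).trans hH))
  exact count D hOk C l1 l2 l3 (hH₁ H ((le_max_left _ _).trans hH) D hOk)
    (hH₂ H ((le_max_left _ _).trans ((le_max_right _ _).trans hH)) D hOk) ε hε _
    fun b hb => (@Finset.mem_filter _ _ (_) _ _).1 hb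

end Pool.Agent.N433.DC
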